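import Pool.Agent.Helper64.OF.St

/-!
# Module GEO (geodesics)
-/

set_option autoImplicit false

namespace Pool.Agent.Helper82.OF

open Pool.Agent.Helper64.OF Pool.Agent.Helper35.PM

theorem hGEO : StGeo := by
  intro V _ G k a b hG hTF hd
  choose w hw using fun t : Fin k => hG.exists_walk_length_eq_dist (a t) (b t)
  -- the vertices
  have hadj : ∀ t i, i < G.dist (a t) (b t) → G.Adj ((w t).getVert i) ((w t).getVert (i + 1)) := by
    intro t i hi
    exact (w t).adj_getVert_succ (by rw [hw]; exact hi)
  have h0 : ∀ t, (w t).getVert 0 = a t := fun t => (w t).getVert_zero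
  have hL : ∀ t, (w t).getVert (G.dist (a t) (b t)) = b t := by
    intro t
    rw [← hw t]
    exact (w t).getVert_length
  -- upper bound for the distance along the path
  have hup : ∀ t i n, i + n ≤ G.dist (a t) (b t) →
      G.dist ((w t).getVert i) ((w t).getVert (i + n)) ≤ n := by
    intro t i n
    induction n with
    | zero => intro _; simp
    | succ n ih =>
      intro h
      have h1 := ih (by omega)
      have h2 := hadj t (i + n) (by omega)
      have h3 : G.dist ((w t).getVert (i + n)) ((w t).getVert (i + n + 1)) = 1 :=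
        SimpleGraph.dist_eq_one_iff_adj.mpr h2
      have h4 := hG.dist_triangle (u := (w t).getVert i) (v := (w t).getVert (i + n))
        (w := (w t).getVert (i + n + 1))
      rw [h3] at h4
      show G.dist ((w t).getVert i) ((w t).getVert (i + n + 1)) ≤ n + 1
      omega
  -- distances from the ends
  have hends : ∀ t i, i ≤ G.dist (a t) (b t) →
      G.dist (a t) ((w t).getVert i) = i ∧
      G.dist ((w t).getVert i) (b t) = G.dist (a t) (b t) - i := by
    intro t i hi
    have h1 := hup t 0 i (by omega)
    rw [h0, zero_add] at h1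
    have h2 := hup t i (G.dist (a t) (b t) - i) (by omega)
    rw [show i + (G.dist (a t) (b t) - i) = G.dist (a t) (b t) by omega, hL] at h2
    have h3 := hG.dist_triangle (u := a t) (v := (w t).getVert i) (w := b t)
    constructor <;> omega
  have hgeo : ∀ t i, i ≤ G.dist (a t) (b t) →
      G.dist (a t) ((w t).getVert i) + G.dist ((w t).getVert i) (b t) = G.dist (a t) (b t) := by
    intro t i hi
    obtain ⟨h1, h2⟩ := hends t i hi
    omega
  -- lower bound
  have hlow : ∀ t i j, i ≤ G.dist (a t) (b t) → j ≤ G.dist (a t) (b t) →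
      j ≤ i + G.dist ((w t).getVert i) ((w t).getVert j) := by
    intro t i j hi hj
    have h1 := (hends t i hi).1
    have h2 := (hends t j hj).1
    have h3 := hG.dist_triangle (u := a t) (v := (w t).getVert i) (w := (w t).getVert j)
    omega
  have hfar : ∀ s t i j, i ≤ G.dist (a s) (b s) → j ≤ G.dist (a t) (b t) →
      G.dist ((w s).getVert i) ((w t).getVert j) ≤ 2 → s = t := by
    intro s t i j hi hj h
    by_contra hst
    have := hd s t hst _ _ (hgeo s i hi) (hgeo t j hj)
    omega
  refine ⟨fun t => G.dist (a t) (b t), fun t i => (w t).getVert i, ?_, h0, hL⟩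
  refine ⟨hadj, ?_, ?_, ?_⟩
  · intro s t i j hi hj h
    replace h : (w s).getVert i = (w t).getVert j := h
    have h1 : G.dist ((w s).getVert i) ((w t).getVert j) = 0 := by rw [h]; simp
    have hst := hfar s t i j hi hj (by omega)
    subst hst
    have h2 := hlow s i j hi hj
    have h3 := hlow s j i hj hi
    rw [SimpleGraph.dist_comm] at h3
    exact ⟨rfl, by omega⟩
  · intro s t i j hi hj h
    replace h : G.Adj ((w s).getVert i) ((w t).getVert j) := h
    have h1 : G.dist ((w s).getVert i) ((w t).getVert j) = 1 :=
      SimpleGraph.dist_eq_one_iff_adj.mpr h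
    have hst := hfar s t i j hi hj (by omega)
    subst hst
    have h2 := hlow s i j hi hj
    have h3 := hlow s j i hj hi
    rw [SimpleGraph.dist_comm] at h3
    refine ⟨rfl, ?_⟩
    have hij : i ≠ j := by
      rintro rfl
      exact h.ne rfl
    omega
  · intro s t i j v hi hj h h'
    replace h : G.Adj ((w s).getVert i) v := h
    replace h' : G.Adj ((w t).getVert j) v := h'
    have e1 : G.dist ((w s).getVert i) v = 1 := SimpleGraph.dist_eq_one_iff_adj.mpr h
    have e2 : G.dist v ((w t).getVert j) = 1 := SimpleGraph.dist_eq_one_iff_adj.mpr h'.symm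
    have h1 := hG.dist_triangle (u := (w s).getVert i) (v := v) (w := (w t).getVert j)
    have hst := hfar s t i j hi hj (by omega)
    subst hst
    have h2 := hlow s i j hi hj
    have h3 := hlow s j i hj hi
    rw [SimpleGraph.dist_comm] at h3
    refine ⟨rfl, ?_⟩
    have hn1 : j ≠ i + 1 := by
      rintro rfl
      have h4 := hadj s i (by change i + 1 ≤ G.dist (a s) (b s) at hj; omega)
      exact hTF _ _ _ h4 h' h
    have hn2 : i ≠ j + 1 := by
      rintro rfl
      have h4 := hadj s j (by change j + 1 ≤ G.dist (a s) (b s) at hi; omega)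
      exact hTF _ _ _ h4 h h'
    omega

end Pool.Agent.Helper82.OF
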