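import Pool.Agent.Helper64.OF.St

/-!
# Module QF (face sums)
-/

set_option autoImplicit false

namespace Pool.Agent.Helper82.OF

open Equiv Equiv.Perm Pool.Agent.Helper64.OF Pool.Agent.Helper35.PM

/-- every element of a cycle occurs exactly once along the cycle -/
theorem cyc_sum {D : Type} [Finite D] [DecidableEq D] (π : Perm D) [DecidableRel π.SameCycle]
    (d x : D) :
    ∑ j ∈ Finset.range (Function.minimalPeriod π d),
      (if π ((π ^ j) d) = x then (1 : ZMod 2) else 0) = if π.SameCycle x d then 1 else 0 := by
  have hpos : 0 < Function.minimalPeriod π d := by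
    apply Function.minimalPeriod_pos_of_mem_periodicPts
    refine ⟨orderOf π, orderOf_pos π, ?_⟩
    show (π)^[orderOf π] d = d
    rw [Equiv.Perm.iterate_eq_pow, pow_orderOf_eq_one, Perm.coe_one, id]
  by_cases h : π.SameCycle x d
  · rw [if_pos h]
    have hinv : π (π⁻¹ x) = x := by rw [← Perm.mul_apply, mul_inv_cancel, Perm.one_apply]
    have h1 : π.SameCycle d (π⁻¹ x) := by
      have : π.SameCycle (π⁻¹ x) (π (π⁻¹ x)) := ⟨1, by simp⟩
      rw [hinv] at this
      exact (this.trans h).symm
    obtain ⟨n, hn⟩ := h1.exists_nat_pow_eq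
    have hn' : (π ^ (n % Function.minimalPeriod π d)) d = π⁻¹ x := by
      rw [← hn, ← Equiv.Perm.iterate_eq_pow, ← Equiv.Perm.iterate_eq_pow]
      exact Function.iterate_mod_minimalPeriod_eq
    rw [Finset.sum_eq_single (n % Function.minimalPeriod π d)]
    · rw [if_pos]
      rw [hn', hinv]
    · intro j hj hne
      rw [if_neg]
      intro h2
      apply hne
      have h3 : (π ^ j) d = (π ^ (n % Function.minimalPeriod π d)) d := by
        apply π.injective
        rw [h2, hn', hinv]
      rw [← Equiv.Perm.iterate_eq_pow, ← Equiv.Perm.iterate_eq_pow] at h3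
      exact Function.iterate_injOn_Iio_minimalPeriod (by simpa using hj)
        (Nat.mod_lt _ hpos) h3
    · intro h2
      exact absurd (Finset.mem_range.mpr (Nat.mod_lt _ hpos)) h2
  · rw [if_neg h]
    apply Finset.sum_eq_zero
    intro j _
    rw [if_neg]
    intro h2
    apply h
    rw [← h2]
    have : π.SameCycle d ((π ^ (j + 1)) d) := ⟨(j + 1 : ℕ), by rw [zpow_natCast]⟩
    rw [pow_succ', Perm.mul_apply] at this
    exact this.symm

theorem hQF : StQF := by
  intro V _ G R k f g hodd hfg hff hgg d
  classical
  rw [Finset.sum_add_distrib]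
  have h1 : ∑ _j ∈ Finset.range (Function.minimalPeriod R.φ d), (1 : ZMod 2) =
      (Function.minimalPeriod R.φ d : ZMod 2) := by simp
  have h2 : ∑ j ∈ Finset.range (Function.minimalPeriod R.φ d), J R f g ((R.φ ^ j) d).symm =
      ∑ t, ((if R.φ.SameCycle (f t) d then 1 else 0) +
        (if R.φ.SameCycle (g t) d then 1 else 0)) := by
    unfold J
    rw [Finset.sum_comm]
    refine Finset.sum_congr rfl fun t _ => ?_
    rw [Finset.sum_add_distrib]
    congr 1
    · exact cyc_sum R.φ d (f t)
    · exact cyc_sum R.φ d (g t)
  rw [h1, h2]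
  by_cases h : Odd (Function.minimalPeriod R.φ d)
  · have h3 : (Function.minimalPeriod R.φ d : ZMod 2) = 1 := by
      obtain ⟨m, hm⟩ := h
      rw [hm]
      push_cast
      have : (2 : ZMod 2) = 0 := by decide
      rw [this]
      ring
    obtain ⟨t, ht⟩ := (hodd d).mp h
    rw [h3, Finset.sum_eq_single t]
    · rcases ht with ht | ht
      · rw [if_pos ht, if_neg]
        · decide
        · intro h4
          exact hfg t t (ht.trans h4.symm)
      · rw [if_pos ht, if_neg]
        · decide
        · intro h4
          exact hfg t t (h4.trans ht.symm)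
    · intro s _ hs
      rw [if_neg, if_neg, add_zero]
      · intro h4
        rcases ht with ht | ht
        · exact hfg t s (ht.trans h4.symm)
        · exact hs (hgg s t (h4.trans ht.symm))
      · intro h4
        rcases ht with ht | ht
        · exact hs (hff s t (h4.trans ht.symm))
        · exact hfg s t (h4.trans ht.symm)
    · intro h4
      exact absurd (Finset.mem_univ t) h4
  · have h3 : (Function.minimalPeriod R.φ d : ZMod 2) = 0 := by
      rw [Nat.not_odd_iff_even] at h
      obtain ⟨m, hm⟩ := h
      rw [hm]
      push_cast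
      generalize (m : ZMod 2) = q
      revert q
      decide
    rw [h3, Finset.sum_eq_zero, add_zero]
    intro t _
    rw [if_neg, if_neg, add_zero]
    · intro h4
      exact h ((hodd d).mpr ⟨t, Or.inr h4⟩)
    · intro h4
      exact h ((hodd d).mpr ⟨t, Or.inl h4⟩)

end Pool.Agent.Helper82.OF
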