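import Pool.Agent.Helper82.OF.Common

/-!
# Module QV (vertex sums)
-/

set_option autoImplicit false

namespace Pool.Agent.Helper82.OF

open Equiv Equiv.Perm Pool.Agent.Helper64.OF Pool.Agent.Helper35.PM

theorem r_inv {V : Type} {G : SimpleGraph V} (R : Rot G) (e : G.Dart) :
    R.r (R.r⁻¹ e) = e := by
  rw [← Perm.mul_apply, mul_inv_cancel, Perm.one_apply]

theorem inv_r {V : Type} {G : SimpleGraph V} (R : Rot G) (e : G.Dart) :
    R.r⁻¹ (R.r e) = e := by
  rw [← Perm.mul_apply, inv_mul_cancel, Perm.one_apply]

open Classical in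
/-- exactly one dart at `v` is followed by `e` if `e` is a dart at `v` -/
theorem sum_r {V : Type} [Fintype V] {G : SimpleGraph V} (R : Rot G) (v : V) (e : G.Dart) :
    ∑ d ∈ Finset.univ.filter (fun d : G.Dart => d.fst = v),
      (if R.r d = e then (1 : ZMod 2) else 0) = if e.fst = v then 1 else 0 := by
  by_cases h : e.fst = v
  · rw [if_pos h, Finset.sum_eq_single (R.r⁻¹ e)]
    · rw [if_pos (r_inv R e)]
    · intro d _ hd
      rw [if_neg]
      intro h1
      apply hd
      rw [← h1, inv_r]
    · intro h1
      exfalso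
      apply h1
      rw [Finset.mem_filter]
      refine ⟨Finset.mem_univ _, ?_⟩
      rw [← R.fst_r, r_inv]
      exact h
  · rw [if_neg h]
    apply Finset.sum_eq_zero
    intro d hd
    rw [Finset.mem_filter] at hd
    rw [if_neg]
    intro h1
    apply h
    rw [← h1, R.fst_r]
    exact hd.2

open Classical in
/-- exactly one dart at `v` ends at the neighbour `u` -/
theorem sum_snd {V : Type} [Fintype V] {G : SimpleGraph V} (P : Prop) [Decidable P] (v u : V)
    (h : P → G.Adj v u) :
    ∑ d ∈ Finset.univ.filter (fun d : G.Dart => d.fst = v),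
      (if P ∧ d.snd = u then (1 : ZMod 2) else 0) = if P then 1 else 0 := by
  by_cases hP : P
  · rw [if_pos hP, Finset.sum_eq_single (⟨(v, u), h hP⟩ : G.Dart)]
    · rw [if_pos ⟨hP, rfl⟩]
    · intro d hd hne
      rw [Finset.mem_filter] at hd
      rw [if_neg]
      intro h1
      apply hne
      apply SimpleGraph.Dart.ext
      exact Prod.ext hd.2 h1.2
    · intro h1
      exfalso
      apply h1
      rw [Finset.mem_filter]
      exact ⟨Finset.mem_univ _, rfl⟩
  · rw [if_neg hP]
    apply Finset.sum_eq_zero
    intro d _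
    rw [if_neg fun h1 => hP h1.1]

theorem hQV : StQV := by
  intro V _ G R k f g L p hp hf hg v
  classical
  rw [Finset.sum_add_distrib]
  have hJ : ∑ d ∈ Finset.univ.filter (fun d : G.Dart => d.fst = v), J R f g d =
      ∑ t, ((if (f t).fst = v then 1 else 0) + (if (g t).fst = v then 1 else 0)) := by
    unfold J
    rw [Finset.sum_comm]
    refine Finset.sum_congr rfl fun t _ => ?_
    rw [Finset.sum_add_distrib, sum_r, sum_r]
  have hcv := hJ
  by_cases hv : ∃ t i, i ≤ L t ∧ v = p t i
  · obtain ⟨t, i, hi, rfl⟩ := hv
    have hX : ∑ d ∈ Finset.univ.filter (fun d : G.Dart => d.fst = p t i), X L p d =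
        (if i < L t then 1 else 0) + (if 0 < i then 1 else 0) := by
      rw [← sum_snd (G := G) (i < L t) (p t i) (p t (i + 1)) (fun h => hp.adj t i h),
        ← sum_snd (G := G) (0 < i) (p t i) (p t (i - 1)) (fun h => by
          have := hp.adj t (i - 1) (by omega)
          rw [show i - 1 + 1 = i by omega] at this
          exact this.symm), ← Finset.sum_add_distrib]
      refine Finset.sum_congr rfl fun d hd => ?_
      rw [Finset.mem_filter] at hd
      exact X_at hp hi d hd.2
    have hJ2 : ∑ s, ((if (f s).fst = p t i then (1 : ZMod 2) else 0) +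
        (if (g s).fst = p t i then 1 else 0)) =
        (if i = 0 then 1 else 0) + (if i = L t then 1 else 0) := by
      have kf : ∀ s, (f s).fst = p t i → s = t ∧ i = 0 := by
        intro s h
        rw [← hf s] at h
        obtain ⟨h2, h3⟩ := hp.inj s t 0 i (Nat.zero_le _) hi h
        exact ⟨h2, h3.symm⟩
      have kg : ∀ s, (g s).fst = p t i → s = t ∧ i = L t := by
        intro s h
        rw [← hg s] at h
        obtain ⟨h2, h3⟩ := hp.inj s t (L s) i le_rfl hi h
        exact ⟨h2, by rw [← h3, h2]⟩
      rw [Finset.sum_eq_single t]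
      · congr 1
        · by_cases h : i = 0
          · rw [if_pos h, if_pos (by rw [← hf t, h])]
          · rw [if_neg h, if_neg fun h' => h (kf t h').2]
        · by_cases h : i = L t
          · rw [if_pos h, if_pos (by rw [← hg t, h])]
          · rw [if_neg h, if_neg fun h' => h (kg t h').2]
      · intro s _ hs
        rw [if_neg fun h => hs (kf s h).1, if_neg fun h => hs (kg s h).1, add_zero]
      · intro h
        exact absurd (Finset.mem_univ t) h
    have e1 := hX
    have e2 := hJ.trans hJ2
    rw [e1, e2]
    by_cases h1 : i = 0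
    · by_cases h2 : i = L t
      · rw [if_neg (by omega), if_neg (by omega), if_pos h1, if_pos h2]
        decide
      · rw [if_pos (by omega), if_neg (by omega), if_pos h1, if_neg h2]
        decide
    · by_cases h2 : i = L t
      · rw [if_neg (by omega), if_pos (by omega), if_neg h1, if_pos h2]
        decide
      · rw [if_pos (by omega), if_pos (by omega), if_neg h1, if_neg h2]
        decide
  · have hX : ∑ d ∈ Finset.univ.filter (fun d : G.Dart => d.fst = v), X L p d = 0 := by
      apply Finset.sum_eq_zero
      intro d hd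
      rw [Finset.mem_filter] at hd
      unfold X
      rw [if_neg]
      rintro ⟨s, j, hj, ⟨h1, _⟩ | ⟨h1, _⟩⟩
      · exact hv ⟨s, j, by omega, by rw [← h1, hd.2]⟩
      · exact hv ⟨s, j + 1, by omega, by rw [← h1, hd.2]⟩
    have hJ2 : ∑ t, ((if (f t).fst = v then (1 : ZMod 2) else 0) +
        (if (g t).fst = v then 1 else 0)) = 0 := by
      apply Finset.sum_eq_zero
      intro s _
      rw [if_neg, if_neg, add_zero]
      · intro h
        exact hv ⟨s, L s, le_rfl, by rw [hg s, h]⟩
      · intro h
        exact hv ⟨s, 0, Nat.zero_le _, by rw [hf s, h]⟩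
    rw [hX, hJ.trans hJ2, add_zero]

end Pool.Agent.Helper82.OF
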