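import Pool.Agent.Helper64.OF.St

/-!
# Darts at the vertices of the paths
-/

set_option autoImplicit false

namespace Pool.Agent.Helper82.OF

open Equiv Equiv.Perm Pool.Agent.Helper64.OF Pool.Agent.Helper35.PM

variable {V : Type} {G : SimpleGraph V} {k : ℕ} {L : Fin k → ℕ} {p : Fin k → ℕ → V}

theorem PE_at (hp : Paths G L p) {t : Fin k} {i : ℕ} (hi : i ≤ L t) (b : V) :
    PE L p (p t i) b ↔ (i < L t ∧ b = p t (i + 1)) ∨ (0 < i ∧ b = p t (i - 1)) := by
  constructor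
  · rintro ⟨s, j, hj, ⟨h1, h2⟩ | ⟨h1, h2⟩⟩
    · obtain ⟨rfl, rfl⟩ := hp.inj t s i j hi (by omega) h1
      exact Or.inl ⟨hj, h2⟩
    · obtain ⟨rfl, rfl⟩ := hp.inj t s i (j + 1) hi (by omega) h1
      exact Or.inr ⟨by omega, h2⟩
  · rintro (⟨h1, h2⟩ | ⟨h1, h2⟩)
    · exact ⟨t, i, h1, Or.inl ⟨rfl, h2⟩⟩
    · refine ⟨t, i - 1, by omega, Or.inr ⟨?_, h2⟩⟩
      rw [show i - 1 + 1 = i by omega]

open Classical in
theorem X_at (hp : Paths G L p) {t : Fin k} {i : ℕ} (hi : i ≤ L t) (d : G.Dart)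
    (hd : d.fst = p t i) :
    X L p d = (if i < L t ∧ d.snd = p t (i + 1) then 1 else 0) +
      (if 0 < i ∧ d.snd = p t (i - 1) then 1 else 0) := by
  unfold X
  rw [hd]
  have h := PE_at hp hi d.snd
  by_cases h1 : i < L t ∧ d.snd = p t (i + 1)
  · have h2 : ¬ (0 < i ∧ d.snd = p t (i - 1)) := by
      rintro ⟨h3, h4⟩
      have := hp.inj t t (i + 1) (i - 1) (by omega) (by omega) (h1.2.symm.trans h4)
      omega
    rw [if_pos (h.mpr (Or.inl h1)), if_pos h1, if_neg h2, add_zero]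
  · by_cases h2 : 0 < i ∧ d.snd = p t (i - 1)
    · rw [if_pos (h.mpr (Or.inr h2)), if_neg h1, if_pos h2, zero_add]
    · rw [if_neg h1, if_neg h2, if_neg, add_zero]
      intro h3
      rcases h.mp h3 with h4 | h4
      · exact h1 h4
      · exact h2 h4

open Classical in
theorem J_at (R : Rot G) {f g : Fin k → G.Dart} (hp : Paths G L p)
    (hf : ∀ t, p t 0 = (f t).fst) (hg : ∀ t, p t (L t) = (g t).fst)
    {t : Fin k} {i : ℕ} (hi : i ≤ L t) (d : G.Dart) (hd : d.fst = p t i) :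
    J R f g d = (if i = 0 ∧ R.r d = f t then 1 else 0) +
      (if i = L t ∧ R.r d = g t then 1 else 0) := by
  have kf : ∀ s, R.r d = f s → s = t ∧ i = 0 := by
    intro s h
    have h1 : p s 0 = p t i := by rw [hf s, ← h, R.fst_r, hd]
    obtain ⟨h2, h3⟩ := hp.inj s t 0 i (Nat.zero_le _) hi h1
    exact ⟨h2, h3.symm⟩
  have kg : ∀ s, R.r d = g s → s = t ∧ i = L t := by
    intro s h
    have h1 : p s (L s) = p t i := by rw [hg s, ← h, R.fst_r, hd]
    obtain ⟨h2, h3⟩ := hp.inj s t (L s) i le_rfl hi h1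
    exact ⟨h2, by rw [← h3, h2]⟩
  unfold J
  rw [Finset.sum_eq_single t]
  · congr 1
    · by_cases h : R.r d = f t
      · rw [if_pos h, if_pos ⟨(kf t h).2, h⟩]
      · rw [if_neg h, if_neg fun h' => h h'.2]
    · by_cases h : R.r d = g t
      · rw [if_pos h, if_pos ⟨(kg t h).2, h⟩]
      · rw [if_neg h, if_neg fun h' => h h'.2]
  · intro s _ hs
    rw [if_neg fun h => hs (kf s h).1, if_neg fun h => hs (kg s h).1, add_zero]
  · intro h
    exact absurd (Finset.mem_univ t) h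

end Pool.Agent.Helper82.OF
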