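import Pool.Agent.Helper82.OF.Common

/-!
# Module RUL (the rules around the vertices of the paths)
-/

set_option autoImplicit false

namespace Pool.Agent.Helper82.OF

open Equiv Equiv.Perm Pool.Agent.Helper64.OF Pool.Agent.Helper35.PM

theorem r_inv' {V : Type} {G : SimpleGraph V} (R : Rot G) (e : G.Dart) :
    R.r (R.r⁻¹ e) = e := by
  rw [← Perm.mul_apply, mul_inv_cancel, Perm.one_apply]

theorem eq_inv {V : Type} {G : SimpleGraph V} (R : Rot G) (d e : G.Dart) :
    R.r d = e ↔ d = R.r⁻¹ e := by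
  constructor
  · rintro rfl
    rw [← Perm.mul_apply, inv_mul_cancel, Perm.one_apply]
  · rintro rfl
    exact r_inv' R e

theorem eq_dart {V : Type} {G : SimpleGraph V} {a b : V} (h : G.Adj a b) (d : G.Dart)
    (hd : d.fst = a) : d.snd = b ↔ d = ⟨(a, b), h⟩ := by
  constructor
  · intro h1
    apply SimpleGraph.Dart.ext
    exact Prod.ext hd h1
  · rintro rfl
    rfl

theorem hRUL : StRul := by
  intro V _ G R k f g L p q hp hf hg hq t i hi
  classical
  have hadj0 : ∀ h : 0 < i, G.Adj (p t i) (p t (i - 1)) := by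
    intro h
    have := hp.adj t (i - 1) (by omega)
    rw [show i - 1 + 1 = i by omega] at this
    exact this.symm
  constructor
  · intro hiL
    by_cases h0 : i = 0
    · refine ⟨R.r⁻¹ (f t), ?_, ?_, ?_, ?_⟩
      · rw [h0, hf t, ← R.fst_r, r_inv']
      · intro _
        exact r_inv' R (f t)
      · intro h
        omega
      · intro d hd
        rw [hq d, X_at hp hi d hd, J_at R hp hf hg hi d hd]
        have e1 : (i < L t ∧ d.snd = p t (i + 1)) ↔ d.snd = p t (i + 1) :=
          ⟨fun h => h.2, fun h => ⟨hiL, h⟩⟩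
        have e2 : (i = 0 ∧ R.r d = f t) ↔ d = R.r⁻¹ (f t) := by
          rw [← eq_inv]
          exact ⟨fun h => h.2, fun h => ⟨h0, h⟩⟩
        have n1 : ¬ (0 < i ∧ d.snd = p t (i - 1)) := fun h => by omega
        have n2 : ¬ (i = L t ∧ R.r d = g t) := fun h => by omega
        rw [if_neg n1, if_neg n2, add_zero, add_zero, add_assoc]
        congr 2
        · exact if_congr e1 rfl rfl
        · exact if_congr e2 rfl rfl
    · have hpos : 0 < i := Nat.pos_of_ne_zero h0
      refine ⟨⟨(p t i, p t (i - 1)), hadj0 hpos⟩, rfl, fun h => absurd h h0, fun _ => rfl, ?_⟩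
      intro d hd
      rw [hq d, X_at hp hi d hd, J_at R hp hf hg hi d hd]
      have e1 : (i < L t ∧ d.snd = p t (i + 1)) ↔ d.snd = p t (i + 1) :=
        ⟨fun h => h.2, fun h => ⟨hiL, h⟩⟩
      have e2 : (0 < i ∧ d.snd = p t (i - 1)) ↔
          d = (⟨(p t i, p t (i - 1)), hadj0 hpos⟩ : G.Dart) := by
        rw [← eq_dart (hadj0 hpos) d hd]
        exact ⟨fun h => h.2, fun h => ⟨hpos, h⟩⟩
      have n1 : ¬ (i = 0 ∧ R.r d = f t) := fun h => h0 h.1
      have n2 : ¬ (i = L t ∧ R.r d = g t) := fun h => by omega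
      rw [if_neg n1, if_neg n2, add_zero, add_zero, add_assoc]
      congr 2
      · exact if_congr e1 rfl rfl
      · exact if_congr e2 rfl rfl
  · intro hpos
    by_cases hL : i = L t
    · refine ⟨R.r⁻¹ (g t), ?_, ?_, ?_, ?_⟩
      · rw [hL, hg t, ← R.fst_r, r_inv']
      · intro _
        exact r_inv' R (g t)
      · intro h
        omega
      · intro d hd
        rw [hq d, X_at hp hi d hd, J_at R hp hf hg hi d hd]
        have e1 : (0 < i ∧ d.snd = p t (i - 1)) ↔ d.snd = p t (i - 1) :=
          ⟨fun h => h.2, fun h => ⟨hpos, h⟩⟩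
        have e2 : (i = L t ∧ R.r d = g t) ↔ d = R.r⁻¹ (g t) := by
          rw [← eq_inv]
          exact ⟨fun h => h.2, fun h => ⟨hL, h⟩⟩
        have n1 : ¬ (i < L t ∧ d.snd = p t (i + 1)) := fun h => by omega
        have n2 : ¬ (i = 0 ∧ R.r d = f t) := fun h => by omega
        rw [if_neg n1, if_neg n2, zero_add, zero_add, add_assoc]
        congr 2
        · exact if_congr e1 rfl rfl
        · exact if_congr e2 rfl rfl
    · have hlt : i < L t := by omega
      refine ⟨⟨(p t i, p t (i + 1)), hp.adj t i hlt⟩, rfl, fun h => absurd h hL,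
        fun _ => rfl, ?_⟩
      intro d hd
      rw [hq d, X_at hp hi d hd, J_at R hp hf hg hi d hd]
      have e1 : (i < L t ∧ d.snd = p t (i + 1)) ↔
          d = (⟨(p t i, p t (i + 1)), hp.adj t i hlt⟩ : G.Dart) := by
        rw [← eq_dart (hp.adj t i hlt) d hd]
        exact ⟨fun h => h.2, fun h => ⟨hlt, h⟩⟩
      have e2 : (0 < i ∧ d.snd = p t (i - 1)) ↔ d.snd = p t (i - 1) :=
        ⟨fun h => h.2, fun h => ⟨hpos, h⟩⟩
      have n1 : ¬ (i = 0 ∧ R.r d = f t) := fun h => by omega
      have n2 : ¬ (i = L t ∧ R.r d = g t) := fun h => hL h.1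
      rw [if_neg n1, if_neg n2, add_zero, add_zero, add_assoc]
      congr 1
      rw [add_comm]
      congr 1
      · exact if_congr e2 rfl rfl
      · exact if_congr e1 rfl rfl

end Pool.Agent.Helper82.OF
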